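import Pool.Agent.D0H90.SM.Stm5

set_option autoImplicit false

/-!
# Project SM, module COT: the cotangent space over the residue field

For a local ring `R` over a field `k` with residue field `k` the dimension of the cotangent space over the residue
field is its dimension over `k`. Applied to `locRing c`.
-/

namespace Pool.Agent.D0H62.SM

open MvPolynomial Pool.Agent.D0H90.SM

universe u

/-- The dimension of the cotangent space of a local ring with residue field `k`. -/
theorem cot_core (k : Type*) [Field k] (R : Type*) [CommRing R] [IsLocalRing R] [Algebra k R]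
    (h : ∀ F : R, ∃ r : k, F - algebraMap k R r ∈ IsLocalRing.maximalIdeal R) :
    Module.finrank (IsLocalRing.ResidueField R) (IsLocalRing.CotangentSpace R) =
      Module.finrank k (IsLocalRing.maximalIdeal R).Cotangent := by
  have : IsScalarTower k (IsLocalRing.ResidueField R) (IsLocalRing.CotangentSpace R) := by
    refine IsScalarTower.of_algebraMap_smul fun r x => ?_
    have h1 : algebraMap k (IsLocalRing.ResidueField R) r =
        IsLocalRing.residue R (algebraMap k R r) := rfl
    rw [h1]
    have h2 : IsLocalRing.residue R (algebraMap k R r) • x = (algebraMap k R r) • x := rfl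
    rw [h2]
    exact algebraMap_smul R r x
  have h1 : Module.finrank k (IsLocalRing.ResidueField R) = 1 := by
    refine (finrank_eq_one_iff_of_nonzero' (1 : IsLocalRing.ResidueField R) one_ne_zero).2 ?_
    intro w
    obtain ⟨F, rfl⟩ := IsLocalRing.residue_surjective w
    obtain ⟨r, hr⟩ := h F
    refine ⟨r, ?_⟩
    rw [Algebra.smul_def, mul_one]
    have h1 : algebraMap k (IsLocalRing.ResidueField R) r =
        IsLocalRing.residue R (algebraMap k R r) := rfl
    rw [h1]
    have h3 : IsLocalRing.residue R (F - algebraMap k R r) = 0 :=
      (IsLocalRing.residue_eq_zero_iff _).2 hr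
    rw [map_sub, sub_eq_zero] at h3
    exact h3.symm
  have h2 := Module.finrank_mul_finrank k (IsLocalRing.ResidueField R) (IsLocalRing.CotangentSpace R)
  rw [h1, one_mul] at h2
  exact h2

/-- Every element of `locRing c` is a constant plus a function vanishing at `c`. -/
theorem exists_const {k : Type u} [Field k] {n d : ℕ} (c : Cf n d → k) (F : locRing c) :
    ∃ r : k, F - algebraMap k (locRing c) r ∈ maxId c := by
  obtain ⟨P, Q, h1, h2, h3⟩ := F.2
  refine ⟨eval c P / eval c Q, ?_⟩
  rw [mem_maxId]
  have hr : algebraMap k (Rat n d k) (eval c P / eval c Q) =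
      algebraMap (Pol n d k) (Rat n d k) (C (eval c P / eval c Q)) := by
    rw [IsScalarTower.algebraMap_apply k (Pol n d k) (Rat n d k)]
    rfl
  refine ⟨P - C (eval c P / eval c Q) * Q, Q, ?_, h2, ?_, ?_⟩
  · intro A A' hA x
    have := h1 A A' hA x
    simp only [map_sub, map_mul, eval_C]
    linear_combination this
  · simp only [map_sub, map_mul, eval_C]
    rw [div_mul_cancel₀ _ h2, sub_self]
  · change (F.1 - algebraMap k (Rat n d k) (eval c P / eval c Q)) * _ = _
    rw [hr, map_sub, map_mul, sub_mul, h3]

theorem t_COT : Pool.Agent.D0H90.SM.S_COT.{u} := by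
  intro k _ n d c
  have h := cot_core k (locRing c) (fun F => by
    obtain ⟨r, hr⟩ := exists_const c F
    exact ⟨r, by rw [← maxId_eq]; exact hr⟩)
  rw [h, ← maxId_eq]
  rfl

end Pool.Agent.D0H62.SM
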