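import Pool.Agent.D0H90.SM.Stm5

set_option autoImplicit false

/-!
# Project SM, module UPB: the Krull dimension of a subalgebra of a field of rational functions

A chain of primes of length `r` in a domain `A` over a field `k` gives `r` algebraically independent elements of `A`.
-/

namespace Pool.Agent.D0H62.SM

open MvPolynomial Algebra Function Cardinal

universe u

/-- algebraically independent elements modulo a prime ideal and a nonzero element of the ideal -/
theorem indep_option {k A : Type u} [Field k] [CommRing A] [IsDomain A] [Algebra k A] (P : Ideal A)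
    [P.IsPrime] {ι : Type} (t : ι → A)
    (ht : AlgebraicIndependent k (fun i => Ideal.Quotient.mkₐ k P (t i))) (x : A) (hx : x ∈ P)
    (hx0 : x ≠ 0) : AlgebraicIndependent k (fun o : Option ι => o.elim x t) := by
  have ht' : AlgebraicIndependent k t := by
    rw [algebraicIndependent_iff_injective_aeval] at ht ⊢
    intro F G h
    apply ht
    have e : ∀ F : MvPolynomial ι k, aeval (fun i => Ideal.Quotient.mkₐ k P (t i)) F =
        Ideal.Quotient.mkₐ k P (aeval t F) := by
      intro F
      rw [← AlgHom.comp_apply]
      congr 1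
      rw [comp_aeval]
    show aeval _ F = aeval _ G
    rw [e, e]
    exact congrArg _ h
  rw [AlgebraicIndependent.option_iff]
  refine ⟨ht', ?_⟩
  intro halg
  obtain ⟨q, hq0, hq⟩ := IsAlgebraic.exists_nonzero_coeff_and_aeval_eq_zero halg (mem_nonZeroDivisors_of_ne_zero hx0)
  apply hq0
  -- the constant coefficient is in `P`
  have h1 : ((q.coeff 0 : adjoin k (Set.range t)) : A) ∈ P := by
    rw [Polynomial.aeval_eq_sum_range, Finset.sum_range_succ'] at hq
    rw [pow_zero, Algebra.smul_def, mul_one] at hq
    have h2 : ((q.coeff 0 : adjoin k (Set.range t)) : A) =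
        -∑ i ∈ Finset.range q.natDegree, q.coeff (i + 1) • x ^ (i + 1) := by
      rw [eq_neg_iff_add_eq_zero, add_comm]
      exact hq
    rw [h2]
    refine P.neg_mem (P.sum_mem fun i _ => ?_)
    rw [Algebra.smul_def, pow_succ, ← mul_assoc]
    exact P.mul_mem_left _ hx
  obtain ⟨F, hF⟩ : ∃ F : MvPolynomial ι k, aeval t F = ((q.coeff 0 : adjoin k (Set.range t)) : A) := by
    have h0 : ((q.coeff 0 : adjoin k (Set.range t)) : A) ∈ (aeval t : MvPolynomial ι k →ₐ[k] A).range := by
      rw [← adjoin_range_eq_range_aeval]
      exact (q.coeff 0).2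
    exact h0
  have h3 : aeval (fun i => Ideal.Quotient.mkₐ k P (t i)) F = 0 := by
    have e : aeval (fun i => Ideal.Quotient.mkₐ k P (t i)) F =
        Ideal.Quotient.mkₐ k P (aeval t F) := by
      rw [← AlgHom.comp_apply]
      congr 1
      rw [comp_aeval]
    rw [e, hF]
    exact Ideal.Quotient.eq_zero_iff_mem.mpr h1
  have h4 : F = 0 := by
    rw [algebraicIndependent_iff_injective_aeval] at ht
    apply ht
    rw [map_zero]
    exact h3
  apply Subtype.ext
  rw [← hF, h4, map_zero]
  rfl

/-- chains of primes and algebraically independent elements -/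
theorem exists_indep (k : Type u) [Field k] (r : ℕ) : ∀ (A : Type u) [CommRing A] [IsDomain A] [Algebra k A]
    (f : ℕ → Ideal A), (∀ i ≤ r, (f i).IsPrime) → (∀ i < r, f i < f (i + 1)) →
    ∃ x : Fin r → A, AlgebraicIndependent k x := by
  induction r with
  | zero =>
    intro A _ _ _ f _ _
    refine ⟨Fin.elim0, ?_⟩
    rw [algebraicIndependent_empty_type_iff]
    exact FaithfulSMul.algebraMap_injective k A
  | succ r ih =>
    intro A _ _ _ f hf hlt
    have hP : (f 1).IsPrime := hf 1 (by omega)
    have hmono : ∀ i, 1 ≤ i → i ≤ r + 1 → f 1 ≤ f i := by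
      intro i h1
      induction i, h1 using Nat.le_induction with
      | base => intro _; exact le_rfl
      | succ i hi ih' =>
        intro h2
        exact (ih' (by omega)).trans (hlt i (by omega)).le
    have hcm : ∀ i, 1 ≤ i → i ≤ r + 1 → ((f i).map (Ideal.Quotient.mk (f 1))).comap (Ideal.Quotient.mk (f 1)) = f i := by
      intro i h1 h2
      exact Ideal.comap_map_mk (hmono i h1 h2)
    obtain ⟨y, hy⟩ := ih (A ⧸ f 1) (fun i => (f (i + 1)).map (Ideal.Quotient.mk (f 1))) (by
      intro i hi
      have := hf (i + 1) (by omega)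
      refine Ideal.map_isPrime_of_surjective Ideal.Quotient.mk_surjective ?_
      rw [Ideal.mk_ker]
      exact hmono (i + 1) (by omega) (by omega)) (by
      intro i hi
      refine lt_of_le_of_ne (Ideal.map_mono (hlt (i + 1) (by omega)).le) ?_
      intro he
      have h1 := congrArg (Ideal.comap (Ideal.Quotient.mk (f 1))) he
      rw [hcm (i + 1) (by omega) (by omega), hcm (i + 1 + 1) (by omega) (by omega)] at h1
      exact (hlt (i + 1) (by omega)).ne h1)
    choose t ht using fun i => Ideal.Quotient.mk_surjective (y i)
    have hne : f 1 ≠ ⊥ := by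
      intro he
      have := hlt 0 (by omega)
      rw [zero_add, he] at this
      exact not_lt_bot this
    obtain ⟨x, hx, hx0⟩ := Submodule.exists_mem_ne_zero_of_ne_bot hne
    have h2 := indep_option (k := k) (f 1) t (by
      have : (fun i => Ideal.Quotient.mkₐ k (f 1) (t i)) = y := by
        funext i
        exact ht i
      rw [this]
      exact hy) x hx hx0
    refine ⟨(fun o : Option (Fin r) => o.elim x t) ∘ (finSuccEquiv r), h2.comp _ (finSuccEquiv r).injective⟩

theorem upb (k : Type u) [Field k] (ι : Type) [Fintype ι]
    (A : Subalgebra k (FractionRing (MvPolynomial ι k))) : ringKrullDim A ≤ Fintype.card ι := by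
  unfold ringKrullDim Order.krullDim
  refine iSup_le fun p => ?_
  obtain ⟨x, hx⟩ := exists_indep k p.length A
    (fun i => (p.toFun ⟨min i p.length, by omega⟩).asIdeal)
    (fun i _ => (p.toFun ⟨min i p.length, by omega⟩).isPrime) (by
      intro i hi
      have h1 : p.toFun ⟨min i p.length, by omega⟩ < p.toFun ⟨min (i + 1) p.length, by omega⟩ := by
        apply p.strictMono
        rw [Fin.lt_def]
        simp only
        omega
      exact h1)
  have hy : AlgebraicIndependent k (fun i => A.val (x i)) := hx.map' (f := A.val) Subtype.val_injective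
  have h1 := hy.lift_cardinalMk_le_trdeg
  have h2 : Algebra.trdeg k (FractionRing (MvPolynomial ι k)) = lift.{u} #ι := by
    have : Algebra.IsAlgebraic (MvPolynomial ι k) (FractionRing (MvPolynomial ι k)) :=
      IsLocalization.isAlgebraic _ (nonZeroDivisors (MvPolynomial ι k))
    have hb : IsTranscendenceBasis k (algebraMap (MvPolynomial ι k) (FractionRing (MvPolynomial ι k)) ∘
        (X : ι → MvPolynomial ι k)) := (IsTranscendenceBasis.mvPolynomial ι k).algebraMap_comp
    have := hb.lift_cardinalMk_eq_trdeg
    simpa using this.symm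
  rw [h2] at h1
  simp only [Cardinal.mk_fintype, Fintype.card_fin, Cardinal.lift_natCast, Nat.cast_le] at h1
  exact_mod_cast h1

theorem t_UPB : Pool.Agent.D0H90.SM.S_UPB.{u} := fun k _ ι _ A => upb k ι A

end Pool.Agent.D0H62.SM
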